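import Pool.Agent.Run7.h77.Hyp3

/-!
# The generic `H₄`-free 3-hypertournament has a Ramsey expansion by a linear order
-/

set_option autoImplicit false

open FirstOrder Language Structure CategoryTheory

namespace Pool.Agent.Results.MP_638395_co.RamseyExpansion

/-- The relation symbols of the language `{R}`: one symbol `R` of arity `3`. -/
inductive SymR : ℕ → Type
  | R : SymR 3

/-- The language `{R}` with one ternary relation symbol. -/
def LR : FirstOrder.Language.{0, 0} := ⟨fun _ => Empty, SymR⟩

/-- The ternary relation of an `{R}`-structure. -/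
def Rel (A : Type) [LR.Structure A] (x y z : A) : Prop :=
  RelMap (L := LR) (M := A) (n := 3) SymR.R ![x, y, z]

/-- `A` is a 3-hypertournament: `R` holds only on triples of distinct elements, is closed under
cyclic shifts, and on each 3-element set exactly one of the two cyclic orderings is in `R`. -/
def IsHypertournament (A : Type) [LR.Structure A] : Prop :=
  (∀ x y z : A, Rel A x y z → x ≠ y ∧ y ≠ z ∧ x ≠ z) ∧
  (∀ x y z : A, Rel A x y z → Rel A y z x) ∧
  (∀ x y z : A, x ≠ y → y ≠ z → x ≠ z → (Rel A x y z ↔ ¬ Rel A x z y))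

/-- The `R`-triples of `H₄`: `(0,1,3)`, `(1,2,3)`, `(2,0,3)`, `(0,2,1)` and their cyclic shifts. -/
def H4Triples : List (Fin 4 × Fin 4 × Fin 4) :=
  [(0, 1, 3), (1, 3, 0), (3, 0, 1), (1, 2, 3), (2, 3, 1), (3, 1, 2),
    (2, 0, 3), (0, 3, 2), (3, 2, 0), (0, 2, 1), (2, 1, 0), (1, 0, 2)]

/-- The 3-hypertournament `H₄` on four vertices. -/
def H4 : Bundled.{0} LR.Structure :=
  ⟨Fin 4,
    { funMap := fun f => Empty.elim f
      RelMap := fun r v => match r, v with
        | SymR.R, v => (v 0, v 1, v 2) ∈ H4Triples }⟩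

/-- The class `𝒲` of finite `H₄`-free 3-hypertournaments. -/
def ClassW : Set (Bundled.{0} LR.Structure) :=
  {A | Finite A ∧ IsHypertournament A ∧ IsEmpty (H4 ↪[LR] A)}

/-- The relation symbols of the language `{R, <}`. -/
inductive SymRlt : ℕ → Type
  | R : SymRlt 3
  | lt : SymRlt 2

/-- The language `{R, <}` with one ternary and one binary relation symbol. -/
def LRlt : FirstOrder.Language.{0, 0} := ⟨fun _ => Empty, SymRlt⟩

/-- The inclusion of languages `{R} ⊆ {R, <}`. -/
def incl : LR →ᴸ LRlt := ⟨fun _ f => Empty.elim f, fun _ r => match r with | SymR.R => SymRlt.R⟩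

/-- The Ramsey property of a class of structures, for colourings of substructures. -/
def HasRamseyProperty (L : FirstOrder.Language.{0, 0}) (K : Set (Bundled.{0} L.Structure)) :
    Prop :=
  ∀ A ∈ K, ∀ B ∈ K, ∀ k : ℕ, 1 ≤ k → ∃ C ∈ K, ∀ χ : L.Substructure C → Fin k,
    ∃ B' : L.Substructure C, Nonempty (B' ≃[L] B) ∧ ∃ i : Fin k,
      ∀ A' : L.Substructure C, A' ≤ B' → Nonempty (A' ≃[L] A) → χ A' = i

instance : LR.IsRelational := fun _ => inferInstanceAs (IsEmpty Empty)

instance : LRlt.IsRelational := fun _ => inferInstanceAs (IsEmpty Empty)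

open Function Run7.h77

/-- the ternary relation as a relational structure -/
def sR (A : Type) [LR.Structure A] : RS Unit (fun _ => 3) A :=
  fun _ t => RelMap (L := LR) (M := A) (n := 3) SymR.R t

/-- the `{R}`-structure given by a ternary relation -/
def toStr {A : Type} (T : RS Unit (fun _ => 3) A) : LR.Structure A :=
  { funMap := fun f => Empty.elim f
    RelMap := fun r v => match r, v with
      | SymR.R, v => T () v }

theorem sR_toStr {A : Type} (T : RS Unit (fun _ => 3) A) : @sR A (toStr T) = T := rfl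

theorem tr3_sR (A : Type) [LR.Structure A] (x y z : A) : tr3 (sR A) x y z ↔ Rel A x y z := Iff.rfl

theorem ht3_iff (A : Type) [LR.Structure A] : HT3 (tr3 (sR A)) ↔ IsHypertournament A :=
  ⟨fun h => ⟨h.ne, h.cyc, h.one⟩, fun h => ⟨h.1, h.2.1, h.2.2⟩⟩

theorem rel_H4 (x y z : H4) : Rel H4 x y z ↔
    ((x, y, z) : Fin 4 × Fin 4 × Fin 4) ∈ H4Triples := Iff.rfl

theorem rel_emb {A B : Type} [LR.Structure A] [LR.Structure B] (e : A ↪[LR] B) (x y z : A) :
    Rel B (e x) (e y) (e z) ↔ Rel A x y z := by
  have h := e.map_rel (n := 3) (SymR.R : LR.Relations 3) ![x, y, z]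
  have e1 : (e ∘ ![x, y, z] : Fin 3 → B) = ![e x, e y, e z] := by
    funext j
    fin_cases j <;> rfl
  rw [e1] at h
  exact h

theorem k3_iff (A : Type) [LR.Structure A] :
    K3 (sR A) ↔ IsHypertournament A ∧ IsEmpty (H4 ↪[LR] A) := by
  constructor
  · rintro ⟨h1, h2⟩
    refine ⟨(ht3_iff A).1 h1, ⟨fun e => ?_⟩⟩
    refine h2 (fun i => e i) (fun i j h => e.injective h) ⟨?_, ?_, ?_, ?_⟩
    · exact (rel_emb e _ _ _).2 ((rel_H4 _ _ _).2 (by decide))
    · exact (rel_emb e _ _ _).2 ((rel_H4 _ _ _).2 (by decide))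
    · exact (rel_emb e _ _ _).2 ((rel_H4 _ _ _).2 (by decide))
    · exact (rel_emb e _ _ _).2 ((rel_H4 _ _ _).2 (by decide))
  · rintro ⟨h1, h2⟩
    refine ⟨(ht3_iff A).2 h1, fun v hv h => ?_⟩
    have pos : ∀ a b c : Fin 4, (a, b, c) ∈ H4Triples → Rel A (v a) (v b) (v c) := by
      obtain ⟨g1, g2, g3, g4⟩ := h
      simp only [tr3_sR] at g1 g2 g3 g4
      have cyc := h1.2.1
      intro a b c habc
      simp only [H4Triples, List.mem_cons, Prod.mk.injEq, List.not_mem_nil, or_false] at habc
      rcases habc with h | h | h | h | h | h | h | h | h | h | h | h <;>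
        obtain ⟨rfl, rfl, rfl⟩ := h
      · exact g1
      · exact cyc _ _ _ g1
      · exact cyc _ _ _ (cyc _ _ _ g1)
      · exact g2
      · exact cyc _ _ _ g2
      · exact cyc _ _ _ (cyc _ _ _ g2)
      · exact g3
      · exact cyc _ _ _ g3
      · exact cyc _ _ _ (cyc _ _ _ g3)
      · exact g4
      · exact cyc _ _ _ g4
      · exact cyc _ _ _ (cyc _ _ _ g4)
    have opp : ∀ a b c : Fin 4, a ≠ b → b ≠ c → a ≠ c → (a, b, c) ∉ H4Triples →
        (a, c, b) ∈ H4Triples := by decide
    have key : ∀ a b c : Fin 4, Rel A (v a) (v b) (v c) ↔ (a, b, c) ∈ H4Triples := by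
      intro a b c
      refine ⟨fun hr => ?_, pos a b c⟩
      by_contra hn
      have hne := h1.1 _ _ _ hr
      have hop := opp a b c (fun h => hne.1 (by rw [h])) (fun h => hne.2.1 (by rw [h]))
        (fun h => hne.2.2 (by rw [h])) hn
      exact (h1.2.2 _ _ _ hne.1 hne.2.1 hne.2.2).1 hr (pos _ _ _ hop)
    exact h2.false
      { toFun := v
        inj' := hv
        map_fun' := fun {n} f => Empty.elim f
        map_rel' := fun {n} r t => by
          cases r
          have e1 : (v ∘ t : Fin 3 → A) = ![v (t 0), v (t 1), v (t 2)] := by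
            funext j
            fin_cases j <;> rfl
          have h3 := key (t 0) (t 1) (t 2)
          rw [Rel, ← e1] at h3
          exact h3 }

/-- Every finite subset of `W` is an `H₄`-free 3-hypertournament. -/
theorem k3_pull {W : Type} [LR.Structure W] (ha : LR.age W = ClassW) {J : Type} [Finite J]
    (f : J → W) (hf : Injective f) : K3 (pull (sR W) f) := by
  letI : LR.Structure J := toStr (pull (sR W) f)
  have hJ : (Bundled.of J : Bundled.{0} LR.Structure) ∈ LR.age W := by
    refine ⟨Structure.fg_iff_finite.2 ‹_›, ⟨{ toFun := f, inj' := hf, map_fun' := ?_, map_rel' := ?_ }⟩⟩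
    · intro n g
      exact Empty.elim g
    · intro n r t
      cases r
      exact Iff.rfl
  rw [ha] at hJ
  exact (k3_iff J).2 ⟨hJ.2.1, hJ.2.2⟩

/-- Every finite `H₄`-free 3-hypertournament embeds in `W`. -/
theorem k3_embed {W : Type} [LR.Structure W] (ha : LR.age W = ClassW) {J : Type} [Finite J]
    (T : RS Unit (fun _ => 3) J) (hT : K3 T) : ∃ h : J → W, Injective h ∧ pull (sR W) h = T := by
  letI : LR.Structure J := toStr T
  have h1 := (k3_iff J).1 hT
  have hJ : (Bundled.of J : Bundled.{0} LR.Structure) ∈ ClassW := ⟨‹_›, h1.1, h1.2⟩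
  rw [← ha] at hJ
  obtain ⟨-, ⟨e⟩⟩ := hJ
  refine ⟨e, e.injective, ?_⟩
  funext i t
  exact propext (e.map_rel (n := 3) (SymR.R : LR.Relations 3) t)

/-- no common reduct -/
abbrev triv (A : Type) : RS Empty (fun _ => 0) A := fun i => i.elim

theorem triv_eq {A : Type} (f : RS Empty (fun _ => 0) A) (g : RS Empty (fun _ => 0) A) :
    f = g := funext fun i => i.elim

theorem oneEdge {W : Type} [LR.Structure W] (ha : LR.age W = ClassW) :
    OneEdge (sR W) (triv W) (triv ℚ) := by
  intro V hV ι E T hι hEs hEi hcl x y hxy hE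
  obtain ⟨T', h1, h2⟩ := edge3 E T hEs (by
    intro J z hz hzE
    have : Finite J := Finite.of_injective z hz
    obtain ⟨h, hh, -, hS⟩ := hcl J z hz hzE
    rw [← hS]
    exact k3_pull ha h hh) x y hxy hE
  refine ⟨T', h1, ?_⟩
  intro J z hz hzE
  have : Finite J := Finite.of_injective z hz
  obtain ⟨h, hh, hS⟩ := k3_embed ha (pull T' z) (h2 J z hz hzE)
  exact ⟨h, hh, triv_eq _ _, hS⟩

theorem sameType_sR (W : Type) [LR.Structure W] : SameType (sR W) (rs LR W) := by
  intro V _ f f' _ _
  constructor
  · intro h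
    funext r t
    obtain ⟨n, r⟩ := r
    cases r
    exact congrFun (congrFun h ()) t
  · intro h
    funext i t
    exact congrFun (congrFun h ⟨3, SymR.R⟩) t

/-- The expansion of `W` by the order pulled back along `g`. -/
def strLt (W : Type) [LR.Structure W] (g : W → ℚ) : LRlt.Structure W :=
  { funMap := fun f => Empty.elim f
    RelMap := fun r v => match r, v with
      | SymRlt.R, v => RelMap (L := LR) (M := W) (n := 3) SymR.R v
      | SymRlt.lt, v => g (v 0) < g (v 1) }

theorem sameType_strLt (W : Type) [LR.Structure W] (g : W → ℚ) :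
    SameType (comb (sR W) ratLT g) (@rs LRlt W (strLt W g)) := by
  letI := strLt W g
  intro V _ f f' _ _
  rw [pull_comb]
  constructor
  · rintro ⟨h1, h2⟩
    funext r t
    obtain ⟨n, r⟩ := r
    cases r
    · exact congrFun (congrFun h2 ()) t
    · exact congrFun (congrFun h1 ()) t
  · intro h
    constructor
    · funext i t
      exact congrFun (congrFun h ⟨2, SymRlt.lt⟩) t
    · funext i t
      exact congrFun (congrFun h ⟨3, SymRlt.R⟩) t

/-- **Theorem.** Let `W` be a countable ultrahomogeneous `{R}`-structure whose age is the class of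
finite `H₄`-free 3-hypertournaments.  Then `W` has an expansion to the finite relational language
`{R, <}`, by a linear order `<`, which is ultrahomogeneous and whose age has the Ramsey property. -/
theorem result (W : Type) [LR.Structure W] [Countable W] (hu : LR.IsUltrahomogeneous W)
    (ha : LR.age W = ClassW) :
    ∃ _ : LRlt.Structure W, incl.IsExpansionOn W ∧
      IsStrictTotalOrder W (fun x y => RelMap (L := LRlt) (M := W) (n := 2) SymRlt.lt ![x, y]) ∧
      LRlt.IsUltrahomogeneous W ∧ HasRamseyProperty LRlt (LRlt.age W) := by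
  classical
  have hC : Compl (sR W) (triv W) (triv ℚ) := compl_of_oneEdge (oneEdge ha)
  have hDS : Det (sR W) (triv W) := fun V _ f f' _ _ _ => triv_eq _ _
  have hDb : Det ratLT (triv ℚ) := fun V _ f f' _ _ _ => triv_eq _ _
  have hM : Match (triv W) (triv ℚ) := by
    intro V hV f ι hf hι _ x hx
    obtain ⟨n, hn⟩ := Infinite.exists_notMem_finset (Set.finite_range ι).toFinset
    exact ⟨n, fun v hv => hn (by simp [← hv]), triv_eq _ _⟩
  obtain ⟨g, hg, hgc, hG⟩ := exists_generic ratLT_ext (ext1_of_ultra hu (sameType_sR W)) hDS hDb hC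
    hM (fun i => i.elim)
  have hext : ExtT (comb (sR W) ratLT g) := comb_ext hg hgc hG
  have hram : RamseyF (comb (sR W) ratLT g) := comb_ramsey ratLT_ramsey ratLT_ext hC hDb hg hgc hG
  letI : LRlt.Structure W := strLt W g
  refine ⟨strLt W g, ⟨fun {n} f => Empty.elim f, fun {n} r t => ?_⟩, ?_, ?_, ?_⟩
  · cases r
    rfl
  · exact
      { trichotomous := fun x y h1 h2 => hg (le_antisymm (not_lt.1 h2) (not_lt.1 h1))
        irrefl := fun x (h : g x < g x) => lt_irrefl _ h
        trans := fun x y z (h1 : g x < g y) (h2 : g y < g z) => h1.trans h2 }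
  · exact ultrahomogeneous_of_extT hext (sameType_strLt W g)
  · exact copyRamsey_of_embRamsey (embRamsey_of_ramseyF hram (sameType_strLt W g))

end Pool.Agent.Results.MP_638395_co.RamseyExpansion
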